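import Pool.Agent.Helper64.MH.Defs

/-!
# MH part POLY: the two-body inequality for polytopes
-/

set_option autoImplicit false

noncomputable section

namespace MH.Helper88P

open MeasureTheory Matrix Set Filter Topology
open scoped ENNReal Pointwise

variable {n : ℕ}

/-- homogenisation -/
def hom (K : Set (Fin n → ℝ)) : Set (Fin (n + 1) → ℝ) :=
  {x | ∃ s : ℝ, 0 ≤ s ∧ ∃ k ∈ K, x = Fin.cons s (s • k)}

lemma cone_add {τ : Type} [Fintype τ] {d : ℕ} {v : τ → Fin d → ℝ} {T : Set τ} {x y : Fin d → ℝ}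
    (hx : x ∈ cone v T) (hy : y ∈ cone v T) : x + y ∈ cone v T := by
  obtain ⟨l, h1, h2, rfl⟩ := hx
  obtain ⟨m, h3, h4, rfl⟩ := hy
  refine ⟨fun t => l t + m t, fun t => add_nonneg (h1 t) (h3 t), fun t ht => ?_, ?_⟩
  · simp [h2 t ht, h4 t ht]
  · rw [← Finset.sum_add_distrib]
    exact Finset.sum_congr rfl fun t _ => (add_smul _ _ _).symm

lemma cone_smul {τ : Type} [Fintype τ] {d : ℕ} {v : τ → Fin d → ℝ} {T : Set τ} {x : Fin d → ℝ}
    {c : ℝ} (hc : 0 ≤ c) (hx : x ∈ cone v T) : c • x ∈ cone v T := by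
  obtain ⟨l, h1, h2, rfl⟩ := hx
  refine ⟨fun t => c * l t, fun t => mul_nonneg hc (h1 t), fun t ht => ?_, ?_⟩
  · simp [h2 t ht]
  · rw [Finset.smul_sum]
    exact Finset.sum_congr rfl fun t _ => smul_smul _ _ _

lemma cons_add (a b : ℝ) (x y : Fin n → ℝ) :
    (Fin.cons (a + b) (x + y) : Fin (n + 1) → ℝ) = Fin.cons a x + Fin.cons b y := by
  ext i
  refine Fin.cases ?_ (fun j => ?_) i <;> simp

lemma cons_smul (c a : ℝ) (x : Fin n → ℝ) :
    (Fin.cons (c * a) (c • x) : Fin (n + 1) → ℝ) = c • Fin.cons a x := by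
  ext i
  refine Fin.cases ?_ (fun j => ?_) i <;> simp

lemma mem_cone_of_mem {τ : Type} [Fintype τ] {d : ℕ} {v : τ → Fin d → ℝ} {T : Set τ} {t : τ}
    (ht : t ∈ T) : v t ∈ cone v T := by
  classical
  refine ⟨fun s => if s = t then 1 else 0, fun s => ?_, fun s hs => ?_, ?_⟩
  · by_cases h : s = t <;> simp [h]
  · have : s ≠ t := fun h => hs (h ▸ ht)
    simp [this]
  · simp

lemma cone_eq {τ : Type} [Fintype τ] (P : τ → Fin n → ℝ) (T : Set τ) (hT : T.Nonempty) :
    cone (fun t => (Fin.cons 1 (P t) : Fin (n + 1) → ℝ)) T = hom (convexHull ℝ (P '' T)) := by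
  classical
  obtain ⟨t0, ht0⟩ := hT
  ext x
  constructor
  · rintro ⟨l, h1, h2, rfl⟩
    have hsum : (∑ t, l t • (Fin.cons 1 (P t) : Fin (n + 1) → ℝ)) =
        Fin.cons (∑ t, l t) (∑ t, l t • P t) := by
      ext i
      refine Fin.cases ?_ (fun j => ?_) i
      · simp [Finset.sum_apply]
      · simp [Finset.sum_apply]
    have hs : 0 ≤ ∑ t, l t := Finset.sum_nonneg fun t _ => h1 t
    rcases hs.eq_or_lt with hs0 | hs0
    · have hl : ∀ t, l t = 0 := by
        intro t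
        exact (Finset.sum_eq_zero_iff_of_nonneg fun t _ => h1 t).1 hs0.symm t (Finset.mem_univ t)
      refine ⟨0, le_rfl, P t0, subset_convexHull ℝ _ ⟨t0, ht0, rfl⟩, ?_⟩
      rw [hsum]
      simp [hl]
    · set s := ∑ t, l t with hsdef
      refine ⟨s, hs, s⁻¹ • ∑ t, l t • P t, ?_, ?_⟩
      · have h3 : s⁻¹ • ∑ t, l t • P t = ∑ t, (l t / s) • (if t ∈ T then P t else P t0) := by
          rw [Finset.smul_sum]
          refine Finset.sum_congr rfl fun t _ => ?_
          by_cases ht : t ∈ T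
          · rw [if_pos ht, smul_smul]; congr 1; field_simp
          · simp [h2 t ht]
        rw [h3]
        apply (convex_convexHull ℝ (P '' T)).sum_mem
        · intro t _; exact div_nonneg (h1 t) hs
        · rw [← Finset.sum_div, ← hsdef, div_self hs0.ne']
        · intro t _
          by_cases ht : t ∈ T
          · rw [if_pos ht]; exact subset_convexHull ℝ _ ⟨t, ht, rfl⟩
          · rw [if_neg ht]; exact subset_convexHull ℝ _ ⟨t0, ht0, rfl⟩
      · rw [hsum, smul_smul, mul_inv_cancel₀ hs0.ne', one_smul]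
  · rintro ⟨s, hs, k, hk, rfl⟩
    have hconv : Convex ℝ {k : Fin n → ℝ | (Fin.cons 1 k : Fin (n + 1) → ℝ) ∈
        cone (fun t => (Fin.cons 1 (P t) : Fin (n + 1) → ℝ)) T} := by
      intro x hx y hy a b ha hb hab
      show (Fin.cons 1 (a • x + b • y) : Fin (n + 1) → ℝ) ∈
        cone (fun t => (Fin.cons 1 (P t) : Fin (n + 1) → ℝ)) T
      have : (Fin.cons 1 (a • x + b • y) : Fin (n + 1) → ℝ) =
          a • Fin.cons 1 x + b • Fin.cons 1 y := by
        rw [← cons_smul, ← cons_smul, ← cons_add, mul_one, mul_one, hab]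
      rw [this]
      exact cone_add (cone_smul ha hx) (cone_smul hb hy)
    have h1 : k ∈ {k : Fin n → ℝ | (Fin.cons 1 k : Fin (n + 1) → ℝ) ∈
        cone (fun t => (Fin.cons 1 (P t) : Fin (n + 1) → ℝ)) T} := by
      refine convexHull_min ?_ hconv hk
      rintro _ ⟨t, ht, rfl⟩
      exact mem_cone_of_mem (v := fun t => (Fin.cons 1 (P t) : Fin (n + 1) → ℝ)) ht
    have h2 := cone_smul hs h1
    rw [← cons_smul, mul_one] at h2
    exact h2

lemma hom_inter {A B : Set (Fin n → ℝ)} (h : (A ∩ B).Nonempty) :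
    hom A ∩ hom B = hom (A ∩ B) := by
  ext x
  constructor
  · rintro ⟨⟨s, hs, k, hk, rfl⟩, s', hs', k', hk', heq⟩
    have h0 : s = s' := by
      have := congrFun heq 0
      simpa using this
    subst h0
    have h1 : s • k = s • k' := by
      funext j
      have := congrFun heq j.succ
      simpa using this
    rcases hs.eq_or_lt with hs0 | hs0
    · obtain ⟨a, ha⟩ := h
      refine ⟨0, le_rfl, a, ha, ?_⟩
      rw [← hs0]
      simp
    · have h2 : k = k' := smul_right_injective _ hs0.ne' h1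
      subst h2
      exact ⟨s, hs, k, ⟨hk, hk'⟩, rfl⟩
  · rintro ⟨s, hs, k, hk, rfl⟩
    exact ⟨⟨s, hs, k, hk.1, rfl⟩, s, hs, k, hk.2, rfl⟩

theorem POLY (hCone : MH.S_CONE) (hHom : MH.S_HOM) : MH.S_POLY := by
  classical
  intro n F G hint
  have hne : (convexHull ℝ (F : Set (Fin n → ℝ)) ∩ convexHull ℝ (G : Set (Fin n → ℝ))).Nonempty :=
    hint.mono interior_subset
  have hF : F.Nonempty := by
    obtain ⟨x, hx, _⟩ := hne
    by_contra h
    rw [Finset.not_nonempty_iff_eq_empty] at h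
    subst h
    simp at hx
  have hG : G.Nonempty := by
    obtain ⟨x, _, hx⟩ := hne
    by_contra h
    rw [Finset.not_nonempty_iff_eq_empty] at h
    subst h
    simp at hx
  let P : (F ⊕ G) → Fin n → ℝ := Sum.elim (fun x => x.1) (fun x => x.1)
  let b : Set (F ⊕ G) := Set.range Sum.inl
  obtain ⟨f0, hf0⟩ := hF
  obtain ⟨g0, hg0⟩ := hG
  have hb : b.Nonempty := ⟨_, ⟨⟨f0, hf0⟩, rfl⟩⟩
  have hbc : bᶜ.Nonempty := by
    refine ⟨Sum.inr ⟨g0, hg0⟩, ?_⟩
    rintro ⟨y, hy⟩
    cases hy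
  have hPb : P '' b = F := by
    ext x
    constructor
    · rintro ⟨_, ⟨y, rfl⟩, rfl⟩
      exact y.2
    · intro hx
      exact ⟨Sum.inl ⟨x, hx⟩, ⟨_, rfl⟩, rfl⟩
  have hPc : P '' bᶜ = G := by
    ext x
    constructor
    · rintro ⟨t, ht, rfl⟩
      rcases t with t | t
      · exact absurd ⟨t, rfl⟩ ht
      · exact t.2
    · intro hx
      refine ⟨Sum.inr ⟨x, hx⟩, ?_, rfl⟩
      rintro ⟨y, hy⟩
      cases hy
  have hPu : P '' Set.univ = (F : Set (Fin n → ℝ)) ∪ G := by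
    rw [← Set.union_compl_self b, Set.image_union, hPb, hPc]
  have hcone := hCone (F ⊕ G) (n + 1) (fun t => (Fin.cons 1 (P t) : Fin (n + 1) → ℝ))
    (Fin.cons 1 0) b (by
      intro t
      simp [dotProduct, Fin.sum_univ_succ])
  rw [cone_eq P b hb, cone_eq P bᶜ hbc, cone_eq P Set.univ ⟨_, Set.mem_univ (Sum.inl ⟨f0, hf0⟩)⟩,
    hPb, hPc, hPu, hom_inter hne] at hcone
  have hclF : MeasurableSet (convexHull ℝ (F : Set (Fin n → ℝ))) :=
    (F.finite_toSet.isCompact_convexHull (𝕜 := ℝ)).measurableSet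
  have hclG : MeasurableSet (convexHull ℝ (G : Set (Fin n → ℝ))) :=
    (G.finite_toSet.isCompact_convexHull (𝕜 := ℝ)).measurableSet
  have hclU : MeasurableSet (convexHull ℝ ((F : Set (Fin n → ℝ)) ∪ G)) :=
    ((F.finite_toSet.union G.finite_toSet).isCompact_convexHull (𝕜 := ℝ)).measurableSet
  have hW : ∀ K : Set (Fin n → ℝ), MeasurableSet K →
      W (Fin.cons 1 0 : Fin (n + 1) → ℝ) (hom K) = ENNReal.ofReal (n.factorial : ℝ) * volume K :=
    fun K hK => hHom n K hK
  rw [hW _ hclF, hW _ hclG, hW _ hclU, hW _ (hclF.inter hclG)] at hcone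
  set c := ENNReal.ofReal (n.factorial : ℝ) with hc
  have hc0 : c ≠ 0 := by
    rw [hc]
    simpa using n.factorial_ne_zero
  have hct : c ≠ ⊤ := ENNReal.ofReal_ne_top
  have h8 : c ^ 8 ≠ 0 := pow_ne_zero _ hc0
  have h8t : c ^ 8 ≠ ⊤ := ENNReal.pow_ne_top hct
  rw [← ENNReal.mul_le_mul_iff_right h8 h8t]
  refine le_trans (le_of_eq ?_) (hcone.trans (le_of_eq ?_))
  · ring
  · ring

end MH.Helper88P

end
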