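import Pool.Agent.Helper64.MH.Defs

/-!
# MH part RS: the Rogers-Shephard inequality for `conv (K ∪ -K)`
-/

set_option autoImplicit false

noncomputable section

namespace MH.Helper88

open MeasureTheory Matrix Set Filter Topology
open scoped ENNReal Pointwise

variable {n : ℕ}

lemma lintegral_exp_Ici (c : ℝ) :
    ∫⁻ t in Ici c, ENNReal.ofReal (Real.exp (-t)) = ENNReal.ofReal (Real.exp (-c)) := by
  have h1 : ∫⁻ t in Ici c, ENNReal.ofReal (Real.exp (-t)) =
      ∫⁻ t in Ioi c, ENNReal.ofReal (Real.exp (-t)) := by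
    rw [setLIntegral_congr Ioi_ae_eq_Ici]
  rw [h1, ← integral_exp_neg_Ioi c, ofReal_integral_eq_lintegral_ofReal]
  · have h2 : IntegrableOn (fun t : ℝ => Real.exp (-t)) (Ioi c) := by
      simpa using exp_neg_integrableOn_Ioi c one_pos
    exact h2
  · exact ae_of_all _ fun t => (Real.exp_pos _).le

lemma lintegral_gamma (n : ℕ) :
    ∫⁻ t in Ioi (0 : ℝ), ENNReal.ofReal (Real.exp (-t) * t ^ n) =
      ENNReal.ofReal (n.factorial : ℝ) := by
  have h1 := Real.Gamma_eq_integral (s := (n : ℝ) + 1) (by positivity)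
  rw [Real.Gamma_nat_eq_factorial] at h1
  have h2 := Real.GammaIntegral_convergent (s := (n : ℝ) + 1) (by positivity)
  have h3 : ∀ t : ℝ, Real.exp (-t) * t ^ ((n : ℝ) + 1 - 1) = Real.exp (-t) * t ^ n := by
    intro t
    rw [add_sub_cancel_right, Real.rpow_natCast]
  simp only [h3] at h1 h2
  rw [h1, ofReal_integral_eq_lintegral_ofReal h2]
  rw [EventuallyLE, ae_restrict_iff' measurableSet_Ioi]
  refine ae_of_all _ fun t ht => ?_
  have ht' : (0 : ℝ) < t := ht
  show 0 ≤ _
  positivity

/-- the exponential integral of a gauge as an integral over the levels -/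
lemma exp_layer {g : (Fin n → ℝ) → ℝ} (hcont : Continuous g) (h0 : ∀ x, 0 ≤ g x) :
    ∫⁻ y, ENNReal.ofReal (Real.exp (-(g y))) =
      ∫⁻ t in Ioi (0 : ℝ), ENNReal.ofReal (Real.exp (-t)) * volume {y | g y ≤ t} := by
  set f : (Fin n → ℝ) → ℝ → ℝ≥0∞ := fun y t =>
    (Ici (g y)).indicator (fun t => ENNReal.ofReal (Real.exp (-t))) t with hf
  have h1 : ∀ y, ENNReal.ofReal (Real.exp (-(g y))) = ∫⁻ t, f y t := by
    intro y
    simp only [hf]
    rw [lintegral_indicator measurableSet_Ici, lintegral_exp_Ici]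
  have hmeas : Measurable (Function.uncurry f) := by
    have e : Function.uncurry f = {p : (Fin n → ℝ) × ℝ | g p.1 ≤ p.2}.indicator
        (fun p => ENNReal.ofReal (Real.exp (-p.2))) := by
      ext ⟨y, t⟩
      simp only [Function.uncurry, hf, indicator, mem_Ici, mem_ofPred_eq]
    rw [e]
    refine Measurable.indicator ?_ ?_
    · exact (by fun_prop : Continuous fun p : (Fin n → ℝ) × ℝ =>
        Real.exp (-p.2)).measurable.ennreal_ofReal
    · exact (isClosed_le (hcont.comp continuous_fst) continuous_snd).measurableSet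
  have h2 : ∫⁻ y, ENNReal.ofReal (Real.exp (-(g y))) = ∫⁻ t, ∫⁻ y, f y t := by
    rw [lintegral_congr h1]
    exact lintegral_lintegral_swap hmeas.aemeasurable
  rw [h2]
  have h3 : ∀ t : ℝ, ∫⁻ y, f y t = ENNReal.ofReal (Real.exp (-t)) * volume {y | g y ≤ t} := by
    intro t
    have e : ∀ y, f y t = {y | g y ≤ t}.indicator
        (fun _ => ENNReal.ofReal (Real.exp (-t))) y := by
      intro y
      simp only [hf, indicator, mem_Ici, mem_ofPred_eq]
    rw [lintegral_congr e, lintegral_indicator (isClosed_le hcont continuous_const).measurableSet,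
      lintegral_const, Measure.restrict_apply_univ]
  simp only [h3]
  rw [← setLIntegral_univ, ← Set.compl_union_self (Ioi (0 : ℝ)),
    lintegral_union measurableSet_Ioi disjoint_compl_left, Set.compl_Ioi]
  have h4 : ∫⁻ t in Iic (0 : ℝ), ENNReal.ofReal (Real.exp (-t)) * volume {y | g y ≤ t} = 0 := by
    rw [← setLIntegral_congr (Iio_ae_eq_Iic (a := (0 : ℝ)) (μ := volume))]
    rw [setLIntegral_congr_fun measurableSet_Iio (g := fun _ => 0)]
    · simp
    · intro t ht
      have ht' : t < 0 := ht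
      have : {y | g y ≤ t} = ∅ := by
        ext y
        simp only [mem_ofPred_eq, mem_empty_iff_false, iff_false, not_le]
        exact lt_of_lt_of_le ht' (h0 y)
      simp [this]
  rw [h4, zero_add]

lemma vol_smul (t : ℝ) (ht : 0 < t) (K : Set (Fin n → ℝ)) :
    volume (t • K) = ENNReal.ofReal (t ^ n) * volume K := by
  rw [Measure.addHaar_smul]
  simp only [Module.finrank_fintype_fun_eq_card, Fintype.card_fin]
  rw [abs_of_nonneg (by positivity)]

lemma lint_const (v : ℝ≥0∞) : ∫⁻ t in Ioi (0 : ℝ), ENNReal.ofReal (Real.exp (-t)) *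
    (ENNReal.ofReal (t ^ n) * v) = ENNReal.ofReal (n.factorial : ℝ) * v := by
  rw [← lintegral_gamma, ← lintegral_mul_const]
  · apply setLIntegral_congr_fun measurableSet_Ioi
    intro t _
    simp only
    rw [ENNReal.ofReal_mul (Real.exp_pos _).le, mul_assoc]
  · exact (by fun_prop : Continuous fun t : ℝ => Real.exp (-t) * t ^ n).measurable.ennreal_ofReal

lemma exp_gauge_ge {C : Set (Fin n → ℝ)} (hc : Convex ℝ C) (hn : C ∈ 𝓝 (0 : Fin n → ℝ)) :
    ENNReal.ofReal (n.factorial : ℝ) * volume C ≤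
      ∫⁻ y, ENNReal.ofReal (Real.exp (-(gauge C y))) := by
  rw [exp_layer (continuous_gauge hc hn) (fun x => gauge_nonneg x), ← lint_const]
  apply setLIntegral_mono' measurableSet_Ioi
  intro t ht
  have ht' : (0 : ℝ) < t := ht
  rw [← vol_smul t ht']
  refine mul_le_mul_right (measure_mono ?_) _
  intro y hy
  exact gauge_le_of_mem ht'.le hy

lemma exp_gauge_le {K : Set (Fin n → ℝ)} (hc : Convex ℝ K) (hn : K ∈ 𝓝 (0 : Fin n → ℝ))
    (hcl : IsClosed K) :
    ∫⁻ y, ENNReal.ofReal (Real.exp (-(gauge K y))) ≤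
      ENNReal.ofReal (n.factorial : ℝ) * volume K := by
  rw [exp_layer (continuous_gauge hc hn) (fun x => gauge_nonneg x), ← lint_const]
  apply setLIntegral_mono' measurableSet_Ioi
  intro t ht
  have ht' : (0 : ℝ) < t := ht
  rw [← vol_smul t ht']
  refine mul_le_mul_right (measure_mono ?_) _
  intro y hy
  have hy' : gauge K y ≤ t := hy
  rw [mem_smul_set_iff_inv_smul_mem₀ ht'.ne']
  have h1 : gauge K (t⁻¹ • y) ≤ 1 := by
    rw [gauge_smul_of_nonneg (inv_nonneg.2 ht'.le), smul_eq_mul, inv_mul_le_iff₀ ht', mul_one]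
    exact hy'
  have h2 := (gauge_le_one_iff_mem_closure hc hn).1 h1
  rwa [hcl.closure_eq] at h2

/-- the inner integral -/
lemma inner {K : Set (Fin n → ℝ)} (hc : Convex ℝ K) (hn : K ∈ 𝓝 (0 : Fin n → ℝ)) (z : Fin n → ℝ) :
    ENNReal.ofReal (Real.exp (-(gauge (convexHull ℝ (K ∪ -K)) z))) *
      (ENNReal.ofReal ((1 / 2) ^ n) * ∫⁻ u, ENNReal.ofReal (Real.exp (-(gauge K u)))) ≤
      ∫⁻ u, ENNReal.ofReal (Real.exp (-(gauge K (z + u)))) *
        ENNReal.ofReal (Real.exp (-(gauge K u))) := by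
  have habs : Absorbent ℝ K := absorbent_nhds_zero hn
  have h0K : (0 : Fin n → ℝ) ∈ K := mem_of_mem_nhds hn
  set C := convexHull ℝ (K ∪ -K) with hC
  have hCn : C ∈ 𝓝 (0 : Fin n → ℝ) :=
    Filter.mem_of_superset hn (subset_union_left.trans (subset_convexHull ℝ _))
  have hCabs : Absorbent ℝ C := absorbent_nhds_zero hCn
  have hhalf : ∫⁻ u, ENNReal.ofReal (Real.exp (-(2 * gauge K u))) =
      ENNReal.ofReal ((1 / 2) ^ n) * ∫⁻ u, ENNReal.ofReal (Real.exp (-(gauge K u))) := by
    have h1 : ∀ u : Fin n → ℝ, ENNReal.ofReal (Real.exp (-(2 * gauge K u))) =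
        (fun v => ENNReal.ofReal (Real.exp (-(gauge K v)))) ((2 : ℝ) • u) := by
      intro u
      simp only
      rw [gauge_smul_of_nonneg (by norm_num : (0 : ℝ) ≤ 2), smul_eq_mul]
    have hm : Measurable fun v : Fin n → ℝ => ENNReal.ofReal (Real.exp (-(gauge K v))) :=
      (Real.continuous_exp.comp (continuous_gauge hc hn).neg).measurable.ennreal_ofReal
    rw [lintegral_congr h1, ← lintegral_map (f := fun v : Fin n → ℝ =>
      ENNReal.ofReal (Real.exp (-(gauge K v)))) (g := fun u : Fin n → ℝ => (2 : ℝ) • u) hm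
      (measurable_const_smul (2 : ℝ)), Measure.map_addHaar_smul volume (by norm_num : (2 : ℝ) ≠ 0),
      lintegral_smul_measure]
    simp only [Module.finrank_fintype_fun_eq_card, Fintype.card_fin, smul_eq_mul]
    rw [abs_of_nonneg (by positivity)]
    congr 2
    rw [one_div, inv_pow]
  have key : ∀ r : ℝ, gauge C z < r → ENNReal.ofReal (Real.exp (-r)) *
      (ENNReal.ofReal ((1 / 2) ^ n) * ∫⁻ u, ENNReal.ofReal (Real.exp (-(gauge K u)))) ≤
      ∫⁻ u, ENNReal.ofReal (Real.exp (-(gauge K (z + u)))) *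
        ENNReal.ofReal (Real.exp (-(gauge K u))) := by
    intro r hr
    obtain ⟨b, hb0, hbr, hzb⟩ := exists_lt_of_gauge_lt hCabs hr
    obtain ⟨c, hcC, rfl⟩ := hzb
    rw [hC, convexHull_union ⟨0, h0K⟩ ⟨0, by simpa using h0K⟩, mem_convexJoin] at hcC
    obtain ⟨x, hx, y, hy, hcxy⟩ := hcC
    rw [hc.convexHull_eq] at hx
    rw [hc.neg.convexHull_eq] at hy
    obtain ⟨a, a', ha, ha', haa, rfl⟩ := hcxy
    have hx1 : gauge K x ≤ 1 := gauge_le_one_of_mem hx
    have hy1 : gauge K (-y) ≤ 1 := gauge_le_one_of_mem (by simpa using hy)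
    set x0 := (b * a) • x with hx0
    set y0 := (b * a') • (-y) with hy0
    have hz : b • (a • x + a' • y) = x0 - y0 := by
      rw [hx0, hy0]; module
    have hg1 : gauge K x0 ≤ b * a := by
      rw [hx0, gauge_smul_of_nonneg (by positivity), smul_eq_mul]
      exact mul_le_of_le_one_right (by positivity) hx1
    have hg2 : gauge K y0 ≤ b * a' := by
      rw [hy0, gauge_smul_of_nonneg (by positivity), smul_eq_mul]
      exact mul_le_of_le_one_right (by positivity) hy1
    simp only [hz]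
    rw [← hhalf, ← lintegral_const_mul' _ _ ENNReal.ofReal_ne_top,
      ← lintegral_add_right_eq_self (fun u => ENNReal.ofReal (Real.exp (-(gauge K (x0 - y0 + u)))) *
        ENNReal.ofReal (Real.exp (-(gauge K u)))) y0]
    apply lintegral_mono
    intro u
    simp only
    rw [← ENNReal.ofReal_mul (Real.exp_pos _).le, ← ENNReal.ofReal_mul (Real.exp_pos _).le,
      ← Real.exp_add, ← Real.exp_add]
    apply ENNReal.ofReal_le_ofReal
    apply Real.exp_le_exp.2
    have e1 : x0 - y0 + (u + y0) = x0 + u := by abel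
    rw [e1]
    have h1 := gauge_add_le hc habs x0 u
    have h2 := gauge_add_le hc habs u y0
    have h3 : b * a + b * a' = b := by rw [← mul_add, haa, mul_one]
    linarith
  have hlim : Tendsto (fun r : ℝ => ENNReal.ofReal (Real.exp (-r)) *
      (ENNReal.ofReal ((1 / 2) ^ n) * ∫⁻ u, ENNReal.ofReal (Real.exp (-(gauge K u)))))
      (𝓝[>] (gauge C z)) (𝓝 (ENNReal.ofReal (Real.exp (-(gauge C z))) *
      (ENNReal.ofReal ((1 / 2) ^ n) * ∫⁻ u, ENNReal.ofReal (Real.exp (-(gauge K u)))))) := by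
    apply ENNReal.Tendsto.mul_const
    · apply ENNReal.tendsto_ofReal
      exact ((Real.continuous_exp.comp continuous_neg).tendsto _).mono_left nhdsWithin_le_nhds
    · left
      simp [Real.exp_pos]
  refine le_of_tendsto hlim ?_
  filter_upwards [self_mem_nhdsWithin] with r hr
  exact key r hr

theorem RS : MH.S_RS := by
  intro n K hK
  obtain ⟨hc, hcpt, hi⟩ := hK
  have hn : K ∈ 𝓝 (0 : Fin n → ℝ) := mem_interior_iff_mem_nhds.1 hi
  have hcont := continuous_gauge hc hn
  set C := convexHull ℝ (K ∪ -K) with hC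
  have hCn : C ∈ 𝓝 (0 : Fin n → ℝ) :=
    Filter.mem_of_superset hn (subset_union_left.trans (subset_convexHull ℝ _))
  set E := ∫⁻ u, ENNReal.ofReal (Real.exp (-(gauge K u))) with hE
  have hEle : E ≤ ENNReal.ofReal (n.factorial : ℝ) * volume K :=
    exp_gauge_le hc hn hcpt.isClosed
  have hfac : (0 : ℝ) < n.factorial := by exact_mod_cast n.factorial_pos
  have hEtop : E ≠ ⊤ := ne_top_of_le_ne_top
    (ENNReal.mul_ne_top ENNReal.ofReal_ne_top hcpt.measure_lt_top.ne) hEle
  have hvol : volume K ≠ 0 := (Measure.measure_pos_of_mem_nhds volume hn).ne'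
  have hE0 : E ≠ 0 := by
    have h1 := exp_gauge_ge hc hn
    intro h
    rw [← hE, h, nonpos_iff_eq_zero, mul_eq_zero] at h1
    rcases h1 with h1 | h1
    · rw [ENNReal.ofReal_eq_zero] at h1; linarith
    · exact hvol h1
  have hCg := exp_gauge_ge (convex_convexHull ℝ (K ∪ -K)) hCn
  have hsq : E * E = ∫⁻ z, ∫⁻ u, ENNReal.ofReal (Real.exp (-(gauge K (z + u)))) *
      ENNReal.ofReal (Real.exp (-(gauge K u))) := by
    rw [lintegral_lintegral_swap]
    · have h1 : ∀ u : Fin n → ℝ, ∫⁻ z, ENNReal.ofReal (Real.exp (-(gauge K (z + u)))) *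
          ENNReal.ofReal (Real.exp (-(gauge K u))) = E * ENNReal.ofReal (Real.exp (-(gauge K u))) := by
        intro u
        rw [lintegral_mul_const' _ _ ENNReal.ofReal_ne_top,
          lintegral_add_right_eq_self (fun z => ENNReal.ofReal (Real.exp (-(gauge K z)))) u]
      rw [lintegral_congr h1, lintegral_const_mul' _ _ hEtop]
    · have m1 : Measurable fun p : (Fin n → ℝ) × (Fin n → ℝ) =>
          ENNReal.ofReal (Real.exp (-(gauge K (p.1 + p.2)))) :=
        (Real.continuous_exp.comp (hcont.comp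
          (continuous_fst.add continuous_snd)).neg).measurable.ennreal_ofReal
      have m2 : Measurable fun p : (Fin n → ℝ) × (Fin n → ℝ) =>
          ENNReal.ofReal (Real.exp (-(gauge K p.2))) :=
        (Real.continuous_exp.comp (hcont.comp continuous_snd).neg).measurable.ennreal_ofReal
      exact (m1.mul m2).aemeasurable
  have h2 : (∫⁻ z, ENNReal.ofReal (Real.exp (-(gauge C z)))) * (ENNReal.ofReal ((1 / 2) ^ n) * E) ≤
      E * E := by
    rw [hsq, ← lintegral_mul_const' _ _ (ENNReal.mul_ne_top ENNReal.ofReal_ne_top hEtop)]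
    apply lintegral_mono
    intro z
    exact inner hc hn z
  have h3 : (ENNReal.ofReal (n.factorial : ℝ) * volume C) * ENNReal.ofReal ((1 / 2) ^ n) ≤
      ENNReal.ofReal (n.factorial : ℝ) * volume K := by
    refine le_trans ?_ hEle
    have h4 : (ENNReal.ofReal (n.factorial : ℝ) * volume C) * ENNReal.ofReal ((1 / 2) ^ n) * E ≤
        E * E := by
      rw [mul_assoc]
      exact (mul_le_mul_left hCg _).trans h2
    exact (ENNReal.mul_le_mul_iff_left hE0 hEtop).1 h4
  have h5 : volume C * ENNReal.ofReal ((1 / 2) ^ n) ≤ volume K := by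
    rw [mul_assoc] at h3
    exact (ENNReal.mul_le_mul_iff_right (by simpa using n.factorial_ne_zero) ENNReal.ofReal_ne_top).1 h3
  calc volume C = 2 ^ n * (volume C * ENNReal.ofReal ((1 / 2) ^ n)) := by
        have h6 : (2 : ℝ≥0∞) ^ n * ENNReal.ofReal ((1 / 2) ^ n) = 1 := by
          have h7 : (2 : ℝ≥0∞) ^ n = ENNReal.ofReal (2 ^ n) := by
            rw [ENNReal.ofReal_pow (by norm_num)]; norm_num
          rw [h7, ← ENNReal.ofReal_mul (by positivity), ← mul_pow]
          norm_num
        rw [mul_left_comm, h6, mul_one]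
    _ ≤ 2 ^ n * volume K := mul_le_mul_right h5 _

end MH.Helper88

end
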